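import Pool.Agent.Helper65.HC.Assembly

/-!
# (J5) for `T ≥ 10`: numerical facts, lower bound of the increment of `β`, the barrier for `Λ`
-/

set_option autoImplicit false

namespace Pool.Agent.Helper48.HC

open Set Pool.Agent.Helper65.HC Pool.Agent.Helper25.HC MeasureTheory intervalIntegral

lemma log_eleven_lt : Real.log 11 < 2.3988 := by
  have h1 : 2 * Real.log 11 = 7 * Real.log 2 + Real.log (121 / 128) := by
    rw [Real.log_div (by norm_num) (by norm_num)]
    have e1 : (121 : ℝ) = 11 ^ 2 := by norm_num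
    have e2 : (128 : ℝ) = 2 ^ 7 := by norm_num
    rw [e1, e2, Real.log_pow, Real.log_pow]
    push_cast
    ring
  have h2 := Real.log_le_sub_one_of_pos (show (0 : ℝ) < 121 / 128 by norm_num)
  have h3 := Real.log_two_lt_d9
  norm_num at h2 h3 ⊢
  linarith

lemma log_eleven_gt : 2.397 < Real.log 11 := by
  have h1 : 2 * Real.log 11 = 7 * Real.log 2 + Real.log (121 / 128) := by
    rw [Real.log_div (by norm_num) (by norm_num)]
    have e1 : (121 : ℝ) = 11 ^ 2 := by norm_num
    have e2 : (128 : ℝ) = 2 ^ 7 := by norm_num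
    rw [e1, e2, Real.log_pow, Real.log_pow]
    push_cast
    ring
  have h2 := Real.one_sub_inv_le_log_of_pos (show (0 : ℝ) < 121 / 128 by norm_num)
  have h3 := Real.log_two_gt_d9
  norm_num at h2 h3 ⊢
  linarith

lemma be_ten_le : be 10 ≤ 1.8026 := by
  have h := log_eleven_lt
  unfold be hl
  norm_num at h ⊢
  linarith

lemma be_ten_ge : 1.8003 ≤ be 10 := by
  have h := log_eleven_gt
  unfold be hl
  norm_num at h ⊢
  linarith

lemma bd_ten_le : bd 10 ≤ 0.0673 := by
  have h := log_eleven_gt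
  unfold bd
  norm_num at h ⊢
  linarith

lemma be_ge {T : ℝ} (hT : 10 ≤ T) : 1.8003 ≤ be T :=
  be_ten_ge.trans (be_mono (by norm_num) hT)

/-- the tangent at `10` -/
lemma be_le {T : ℝ} (hT : 10 ≤ T) : be T ≤ 1.8026 + 0.0673 * (T - 10) := by
  have h1 := be_incr (show (0 : ℝ) < 10 by norm_num) hT
  have h2 : 2 * √(1 + 10) * (√(1 + T) - √(1 + 10)) ≤ T - 10 := by
    have e1 : √(1 + 10) ^ 2 = 1 + (10 : ℝ) := Real.sq_sqrt (by norm_num)
    have e2 : √(1 + T) ^ 2 = 1 + T := Real.sq_sqrt (by linarith)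
    nlinarith [sq_nonneg (√(1 + T) - √(1 + 10))]
  have h3 := bd_pos (show (0 : ℝ) < 10 by norm_num)
  have h4 : bd 10 * (2 * √(1 + 10) * (√(1 + T) - √(1 + 10))) ≤ bd 10 * (T - 10) :=
    mul_le_mul_of_nonneg_left h2 h3.le
  have h5 : bd 10 * (T - 10) ≤ 0.0673 * (T - 10) :=
    mul_le_mul_of_nonneg_right bd_ten_le (by linarith)
  linarith [be_ten_le]

/-- `m = (1+T)/β ≥ 6.1` -/
lemma m_ge {T : ℝ} (hT : 10 ≤ T) : 6.1 * be T ≤ 1 + T := by
  have := be_le hT
  linarith

/-- `m - 1 ≤ 1.132 c` -/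
lemma k_fact {T : ℝ} (hT : 10 ≤ T) :
    be T * (1.264 * (1 + T) + 1) ≤ 0.132 * (1 + T) ^ 2 + (1 + T) := by
  have h1 := be_le hT
  have h2 : be T * (1.264 * (1 + T) + 1) ≤ (1.8026 + 0.0673 * (T - 10)) * (1.264 * (1 + T) + 1) :=
    mul_le_mul_of_nonneg_right h1 (by linarith)
  nlinarith

/-- lower bound of the increment of `β` -/
lemma be_incr_lower {L T : ℝ} (hL : 0 < L) (h : L ≤ T) :
    bd T * (2 * √(1 + T) * (√(1 + T) - √(1 + L))) ≤ be T - be L := by
  have hT : 0 < T := hL.trans_le h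
  have hd : ∀ x : ℝ, 0 < x → HasDerivAt
      (fun x => (be T - be x) - bd T * (2 * √(1 + T) * (√(1 + T) - √(1 + x))))
      (-(bd x) + bd T * √(1 + T) / √(1 + x)) x := by
    intro x hx
    have h0 : HasDerivAt (fun x : ℝ => 1 + x) 1 x := (hasDerivAt_id x).const_add 1
    have h1 := h0.sqrt (by linarith : (1 : ℝ) + x ≠ 0)
    have hs : 0 < √(1 + x) := Real.sqrt_pos.mpr (by linarith)
    refine (((hasDerivAt_be hx).const_sub _).sub
      (((h1.const_sub _).const_mul _).const_mul _)).congr_deriv ?_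
    field_simp
    ring
  have key : AntitoneOn
      (fun x => (be T - be x) - bd T * (2 * √(1 + T) * (√(1 + T) - √(1 + x)))) (Icc L T) := by
    refine antitoneOn_of_deriv_nonpos (convex_Icc L T) ?_ ?_ ?_
    · exact fun x hx => (hd x (hL.trans_le hx.1)).continuousAt.continuousWithinAt
    · intro x hx
      rw [interior_Icc] at hx
      exact (hd x (hL.trans hx.1)).differentiableAt.differentiableWithinAt
    · intro x hx
      rw [interior_Icc] at hx
      have hx0 : 0 < x := hL.trans hx.1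
      rw [(hd x hx0).deriv]
      have hs : 0 < √(1 + x) := Real.sqrt_pos.mpr (by linarith)
      have h1 := sqrt_bd_anti (mem_Ioi.2 hx0) (mem_Ioi.2 hT) hx.2.le
      simp only at h1
      have h2 : bd T * √(1 + T) / √(1 + x) ≤ bd x := by
        rw [div_le_iff₀ hs]
        linarith
      linarith
  have := key ⟨le_rfl, h⟩ ⟨h, le_rfl⟩ h
  simp only [sub_self, mul_zero] at this
  linarith

/-- `T β'(T) = 1 - 2 β(T)/(1+T)` -/
lemma bd_eq {T : ℝ} (hT : 0 < T) : T * bd T = 1 - 2 * be T / (1 + T) := by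
  unfold bd be hl
  have : (1 : ℝ) + T ≠ 0 := by linarith
  field_simp
  ring

/-- `(1+T)²`-form of `t` and `|t'|` -/
lemma tf_eq {T L : ℝ} (hL : 0 < L) : tf T L = gg L ^ 2 * (be T - be L) / be T ∨ be T = 0 := by
  by_cases hb : be T = 0
  · exact Or.inr hb
  · left
    unfold tf
    rw [aa_eq, uu_eq hL]
    field_simp

lemma td_eq {T L : ℝ} (hL : 0 < L) (hb : be T ≠ 0) :
    td T L = gg L ^ 2 * (2 * gg L * (be T - be L) + bd L) / be T := by
  have e3 : (2 * hl L - (L / (1 + L)) ^ 2) / L ^ 3 = gg L ^ 2 * (2 * gg L * be L - bd L) := by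
    unfold gg be bd hl
    have : (1 : ℝ) + L ≠ 0 := by linarith
    field_simp
    ring
  unfold td
  rw [e3, aa_eq]
  field_simp
  ring

lemma Pf_nonneg {T x : ℝ} (hx : 0 < x) (h : x ≤ T) : 0 ≤ Pf T x := by
  unfold Pf
  exact mul_nonneg (by positivity) (tf_nonneg hx h)

lemma one_le_Ef {T x : ℝ} (hx : 0 < x) (h : x ≤ T) : 1 ≤ Ef T x := by
  unfold Ef
  rw [Real.one_le_exp_iff]
  refine integral_nonneg h ?_
  intro u hu
  exact Pf_nonneg (hx.trans_le hu.1) hu.2

/-- **The barrier.** If `y ≤ κ g(T)` and `2 (w-1)(κ - 2 w²) ≤ ε w²` for all `w ≥ 1`, then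
`Λ(L, y) ≤ y - (1-ε) (β(T)-β(L))/β(T)`. -/
lemma Lam_le {κ ε : ℝ} (hκ : κ ≤ 6)
    (hw : ∀ w : ℝ, 1 ≤ w → 2 * (w - 1) * (κ - 2 * w ^ 2) ≤ ε * w ^ 2)
    {T L y : ℝ} (hL : 0 < L) (h : L ≤ T) (hy : y ≤ κ * gg T) :
    Lam T L y ≤ y - (1 - ε) * ((be T - be L) / be T) := by
  have hT : 0 < T := hL.trans_le h
  have hbT := be_pos hT
  have hg := gg_pos hT.le
  have hpt : ∀ x : ℝ, 0 < x → x ≤ T →
      (1 - ε) * (bd x / be T) ≤ Ef T x * ((1 + x) ^ 2 * (td T x - y * tf T x)) := by
    intro x hx hxT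
    have e1 : (1 + x) ^ 2 * (td T x - y * tf T x) =
        (bd x - (y - 2 * gg x) * (be T - be x)) / be T := by
      have h1 : tf T x = gg x ^ 2 * (be T - be x) / be T := by
        rcases tf_eq (T := T) hx with h | h
        · exact h
        · exact absurd h hbT.ne'
      rw [h1, td_eq hx hbT.ne']
      have h2 : (1 + x) * gg x = 1 := by
        unfold gg
        have : (1 : ℝ) + x ≠ 0 := by linarith
        field_simp
      have h3 : (1 + x) ^ 2 * gg x ^ 2 = 1 := by rw [← mul_pow, h2, one_pow]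
      field_simp
      linear_combination (2 * gg x * (be T - be x) + bd x - y * (be T - be x)) * h3
    have hB : 0 ≤ be T - be x := by linarith [be_mono hx hxT]
    have hbd := bd_pos hx
    have hincr := be_incr hx hxT
    -- the pointwise inequality
    have e2 : (y - 2 * gg x) * (be T - be x) ≤ ε * bd x := by
      have h0 : (y - 2 * gg x) * (be T - be x) ≤ (κ * gg T - 2 * gg x) * (be T - be x) :=
        mul_le_mul_of_nonneg_right (by linarith) hB
      set r := √(1 + x) with hr
      set R := √(1 + T) with hR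
      have hr2 : r ^ 2 = 1 + x := Real.sq_sqrt (by linarith)
      have hR2 : R ^ 2 = 1 + T := Real.sq_sqrt (by linarith)
      have hr0 : 0 < r := Real.sqrt_pos.mpr (by linarith)
      have hR0 : 0 < R := Real.sqrt_pos.mpr (by linarith)
      have hrR : r ≤ R := Real.sqrt_le_sqrt (by linarith)
      have hε : 0 ≤ ε := by
        have := hw 1 le_rfl
        linarith
      rcases le_or_gt (κ * gg T - 2 * gg x) 0 with h1 | h1
      · have h2 : (κ * gg T - 2 * gg x) * (be T - be x) ≤ 0 :=
          mul_nonpos_of_nonpos_of_nonneg h1 hB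
        have h3 : 0 ≤ ε * bd x := mul_nonneg hε hbd.le
        linarith
      · have h2 : (κ * gg T - 2 * gg x) * (be T - be x) ≤
            (κ * gg T - 2 * gg x) * (bd x * (2 * r * (R - r))) :=
          mul_le_mul_of_nonneg_left hincr h1.le
        have h3 : (κ * gg T - 2 * gg x) * (2 * r * (R - r)) ≤ ε := by
          have h4 := hw (R / r) (by rw [le_div_iff₀ hr0]; linarith)
          have e3 : (κ * gg T - 2 * gg x) * (2 * r * (R - r)) =
              2 * (R / r - 1) * (κ - 2 * (R / r) ^ 2) / (R / r) ^ 2 := by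
            unfold gg
            rw [← hr2, ← hR2]
            field_simp
          rw [e3, div_le_iff₀ (by positivity)]
          exact h4
        have h5 := mul_le_mul_of_nonneg_left h3 hbd.le
        nlinarith
    have h6 : (1 - ε) * (bd x / be T) ≤ (1 + x) ^ 2 * (td T x - y * tf T x) := by
      rw [e1]
      have : (1 - ε) * (bd x / be T) = (bd x - ε * bd x) / be T := by ring
      rw [this]
      exact div_le_div_of_nonneg_right (by linarith) hbT.le
    have h7 : 0 ≤ (1 + x) ^ 2 * (td T x - y * tf T x) := by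
      have h8 := td_ge hx hxT (y := y) (by
        have : κ * gg T ≤ 6 * gg T := mul_le_mul_of_nonneg_right hκ hg.le
        linarith)
      exact mul_nonneg (by positivity) (by linarith)
    have h9 : (1 + x) ^ 2 * (td T x - y * tf T x) ≤
        Ef T x * ((1 + x) ^ 2 * (td T x - y * tf T x)) := by
      have := mul_le_mul_of_nonneg_right (one_le_Ef hx hxT) h7
      linarith
    linarith
  have hd : ∀ x : ℝ, 0 < x → HasDerivAt
      (fun x => (Ef T x * y - Jf T x) - (y - (1 - ε) * ((be T - be x) / be T)))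
      (Ef T x * ((1 + x) ^ 2 * (td T x - y * tf T x)) - (1 - ε) * (bd x / be T)) x := by
    intro x hx
    refine ((((hasDerivAt_Ef hT hx).mul_const y).sub (hasDerivAt_Jf hT hx)).sub
      ((((((hasDerivAt_be hx).const_sub (be T)).div_const (be T)).const_mul (1 - ε)).const_sub
        y))).congr_deriv ?_
    unfold Qf Pf
    ring
  have key : MonotoneOn
      (fun x => (Ef T x * y - Jf T x) - (y - (1 - ε) * ((be T - be x) / be T))) (Icc L T) := by
    refine monotoneOn_of_deriv_nonneg (convex_Icc L T) ?_ ?_ ?_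
    · exact fun x hx => (hd x (hL.trans_le hx.1)).continuousAt.continuousWithinAt
    · intro x hx
      rw [interior_Icc] at hx
      exact (hd x (hL.trans hx.1)).differentiableAt.differentiableWithinAt
    · intro x hx
      rw [interior_Icc] at hx
      rw [(hd x (hL.trans hx.1)).deriv]
      have := hpt x (hL.trans hx.1) hx.2.le
      linarith
  have h1 := key ⟨le_rfl, h⟩ ⟨h, le_rfl⟩ h
  simp only at h1
  have h2 : Ef T T * y - Jf T T = y := by
    unfold Ef Jf
    rw [integral_same, integral_same, Real.exp_zero]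
    ring
  rw [h2, sub_self, zero_div, mul_zero, sub_zero, sub_self] at h1
  unfold Lam
  rw [min_eq_left h]
  linarith

lemma barrier3 {T L y : ℝ} (hL : 0 < L) (h : L ≤ T) (hy : y ≤ 3 * gg T) :
    Lam T L y ≤ y - 0.9 * ((be T - be L) / be T) := by
  have := Lam_le (κ := 3) (ε := 0.1) (by norm_num) (fun w hw => by
    nlinarith [sq_nonneg (w - 1.105), mul_nonneg (sub_nonneg.2 hw) (sq_nonneg (w - 1.105)),
      mul_nonneg (sub_nonneg.2 hw) (sq_nonneg w)]) hL h hy
  norm_num at this ⊢
  linarith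

lemma barrier24 {T L y : ℝ} (hL : 0 < L) (h : L ≤ T) (hy : y ≤ 2.4 * gg T) :
    Lam T L y ≤ y - 0.98 * ((be T - be L) / be T) := by
  have := Lam_le (κ := 2.4) (ε := 0.02) (by norm_num) (fun w hw => by
    nlinarith [sq_nonneg (w - 1.05), mul_nonneg (sub_nonneg.2 hw) (sq_nonneg (w - 1.05)),
      mul_nonneg (sub_nonneg.2 hw) (sq_nonneg w)]) hL h hy
  norm_num at this ⊢
  linarith

end Pool.Agent.Helper48.HC
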