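import Pool.Agent.Helper48.HC.J5core

/-!
# (J5) for `T ≥ 10`: the `x`-side
-/

set_option autoImplicit false

namespace Pool.Agent.Helper48.HC

/-- concavity of the logarithm on `[6,S]` -/
lemma log_chord {S ζ : ℝ} (h6 : 6 ≤ ζ) (hS : ζ ≤ S) (hS6 : 6 < S) :
    (S - ζ) * Real.log 6 + (ζ - 6) * Real.log S ≤ (S - 6) * Real.log ζ := by
  have h := (strictConcaveOn_log_Ioi.concaveOn).2 (show (6 : ℝ) ∈ Set.Ioi 0 by norm_num)
    (show S ∈ Set.Ioi (0 : ℝ) by simp only [Set.mem_Ioi]; linarith)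
    (show 0 ≤ (S - ζ) / (S - 6) by exact div_nonneg (by linarith) (by linarith))
    (show 0 ≤ (ζ - 6) / (S - 6) by exact div_nonneg (by linarith) (by linarith))
    (by
      have hne : S - 6 ≠ 0 := by linarith
      rw [← add_div, div_eq_one_iff_eq hne]
      ring)
  simp only [smul_eq_mul] at h
  have hS' : 0 < S - 6 := by linarith
  have hne : S - 6 ≠ 0 := hS'.ne'
  have e1 : (S - ζ) / (S - 6) * 6 + (ζ - 6) / (S - 6) * S = ζ := by
    field_simp
    ring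
  rw [e1] at h
  have h2 := mul_le_mul_of_nonneg_left h hS'.le
  have e2 : (S - 6) * ((S - ζ) / (S - 6) * Real.log 6 + (ζ - 6) / (S - 6) * Real.log S) =
      (S - ζ) * Real.log 6 + (ζ - 6) * Real.log S := by
    field_simp
  linarith

/-- the function `λ` -/
lemma lam_bounds {m S β ζ : ℝ} (hm : 6.1 ≤ m) (hmS : m * β = S) (hβ : 1.8003 ≤ β)
    (hS : 11 ≤ S) (hlog : Real.log S = β * (1 - 1 / S) ^ 2 + (1 - 1 / S)) (h6 : 6 ≤ ζ)
    (hζ : ζ ≤ S) :
    0.3774 * ζ + 0.8334 ≤ (1 + 5.2 / 15) + m * (Real.log ζ - (1 + 5.2 / 15)) ∧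
    0.7441 * (ζ - 6) ≤ (1 + 5.2 / 15) + m * (Real.log ζ - (1 + 5.2 / 15)) := by
  have hS0 : 0 < S := by linarith
  have hm0 : 0 < m := by linarith
  have hβ0 : 0 < β := by linarith
  set a : ℝ := 1 + 5.2 / 15 with ha
  have ha' : a = 20.2 / 15 := by rw [ha]; norm_num
  -- value at `6`
  have h1 : 4.06 ≤ a + m * (Real.log 6 - a) := by
    have e1 := log_six_ge
    have e2 : 6.1 * (Real.log 6 - a) ≤ m * (Real.log 6 - a) :=
      mul_le_mul_of_nonneg_right hm (by rw [ha']; linarith)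
    rw [ha'] at e2 ⊢
    linarith
  -- value at `S`
  have h2 : 0.8074 * S - 1.209 ≤ a + m * (Real.log S - a) := by
    have e1 : m * Real.log S = S * (1 - 1 / S) ^ 2 + m * (1 - 1 / S) := by
      rw [hlog]
      linear_combination (1 - 1 / S) ^ 2 * hmS
    have e2 : S * (1 - 1 / S) ^ 2 = S - 2 + 1 / S := by
      field_simp
      ring
    have e3 : m * (1 - 1 / S) = m - 1 / β := by
      rw [← hmS]
      field_simp
    have e4 : 1 / β ≤ 0.55547 := by
      rw [div_le_iff₀ hβ0]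
      linarith
    have e5 : m ≤ 0.55547 * S := by
      rw [← hmS]
      nlinarith
    have e6 : 0 < 1 / S := by positivity
    have e7 : m * (Real.log S - a) = m * Real.log S - m * a := by ring
    rw [e7, e1, e2, e3, ha']
    linarith
  have hc := log_chord h6 hζ (by linarith)
  have h3 : (S - ζ) * (a + m * (Real.log 6 - a)) + (ζ - 6) * (a + m * (Real.log S - a)) ≤
      (S - 6) * (a + m * (Real.log ζ - a)) := by
    have := mul_le_mul_of_nonneg_left hc hm0.le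
    linarith
  have h4 : (S - ζ) * 4.06 + (ζ - 6) * (0.8074 * S - 1.209) ≤
      (S - 6) * (a + m * (Real.log ζ - a)) := by
    have e1 := mul_le_mul_of_nonneg_left h1 (sub_nonneg.2 hζ)
    have e2 := mul_le_mul_of_nonneg_left h2 (sub_nonneg.2 h6)
    linarith
  have hS6 : 0 < S - 6 := by linarith
  constructor
  · refine le_of_mul_le_mul_left (le_trans ?_ h4) hS6
    have e1 : 0 ≤ (S - ζ) * (4.06 - (0.3774 * 6 + 0.8334)) :=
      mul_nonneg (by linarith) (by norm_num)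
    have e2 : 0 ≤ (ζ - 6) * ((0.8074 * S - 1.209) - (0.3774 * S + 0.8334)) :=
      mul_nonneg (by linarith) (by linarith)
    linarith
  · refine le_of_mul_le_mul_left (le_trans ?_ h4) hS6
    have e1 : 0 ≤ (S - ζ) * 4.06 := mul_nonneg (by linarith) (by norm_num)
    have e2 : 0 ≤ (ζ - 6) * ((0.8074 * S - 1.209) - 0.7441 * (S - 6)) :=
      mul_nonneg (by linarith) (by linarith)
    linarith

/-- **The `x`-side.** -/
lemma xside {m c S β z b q sv bv ζ θ s px bx : ℝ} (hm : 6.1 ≤ m) (hc : 0 < c)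
    (hk : m - 1 ≤ 1.132 * c) (hmS : m * β = S) (hβ : 1.8003 ≤ β) (hS : 11 ≤ S)
    (hlog : Real.log S = β * (1 - 1 / S) ^ 2 + (1 - 1 / S)) (hz : 0.672 < z) (hz2 : z < 2.4)
    (hq0 : 0 < q) (hq4 : 1 ≤ 2.395 * q ^ 4) (hzbv : z * bv ≤ 3.2) (hzb : 0.63 ≤ z - b)
    (hb : 0 ≤ b) (hsv : 0 ≤ sv) (hζ : 3 < ζ) (hζS : ζ ≤ S) (hθ : 0 ≤ θ) (hs : 6 * s ≤ θ)
    (hpx : 15 * (px * c) ≤ θ + 5.2 * c) (hbx : 0 ≤ bx)
    (hC : (ζ - 1) + m * xi ζ + bx * (1 - ζ / 6) - ζ * (m - 1) * px - s < 0) :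
    0 ≤ z * (sv - s) + 1 / q ^ 4 * (z - ζ) + θ - 1 / q ^ 4 * b + z * max (bx - bv) 0 := by
  have hq40 : 0 < q ^ 4 := pow_pos hq0 4
  have hr : 1 / q ^ 4 ≤ 2.395 := by
    rw [div_le_iff₀ hq40]
    exact hq4
  have hr0 : 0 < 1 / q ^ 4 := by positivity
  set r := 1 / q ^ 4 with hrdef
  have hReq : r * (ζ - z + b) ≤ 2.395 * (ζ - 0.63) := by
    have e1 : r * (ζ - z + b) ≤ 2.395 * (ζ - z + b) :=
      mul_le_mul_of_nonneg_right hr (by linarith)
    linarith
  have hzpos : 0 < z := by linarith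
  have hζ0 : 0 < ζ := by linarith
  have hm1 : 0 < m - 1 := by linarith
  have hzsv : 0 ≤ z * sv := mul_nonneg hzpos.le hsv
  have hzs : z * s ≤ z * (θ / 6) := mul_le_mul_of_nonneg_left (by linarith) hzpos.le
  -- `(m-1) p_x`
  have hp : 15 * ((m - 1) * px) ≤ 1.132 * θ + 5.2 * (m - 1) := by
    have e1 : (m - 1) * (15 * (px * c)) ≤ (m - 1) * (θ + 5.2 * c) :=
      mul_le_mul_of_nonneg_left hpx hm1.le
    have e2 : (m - 1) * θ ≤ 1.132 * c * θ := mul_le_mul_of_nonneg_right hk hθ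
    have e3 : 15 * ((m - 1) * px) * c ≤ (1.132 * θ + 5.2 * (m - 1)) * c := by linarith
    exact le_of_mul_le_mul_right e3 hc
  have hp2 : ζ * (m - 1) * px ≤ ζ * ((1.132 * θ + 5.2 * (m - 1)) / 15) := by
    have e1 : (m - 1) * px ≤ (1.132 * θ + 5.2 * (m - 1)) / 15 := by
      rw [le_div_iff₀ (by norm_num)]
      linarith
    have := mul_le_mul_of_nonneg_left e1 hζ0.le
    linarith
  rcases le_or_gt ζ 6 with h6 | h6
  · -- `3 < ζ ≤ 6`
    have e1 : 0 ≤ bx * (1 - ζ / 6) := mul_nonneg hbx (by linarith)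
    have e2 := xi_tangent hζ0 (show (0 : ℝ) < 3 by norm_num) log_three_ge
    have e3 : 6.1 * (ζ * 1.0985 - 3 + 1 - 5.2 / 15 * ζ) ≤ m * (xi ζ - 5.2 / 15 * ζ) := by
      have e4 : 6.1 * (ζ * 1.0985 - 3 + 1 - 5.2 / 15 * ζ) ≤ m * (ζ * 1.0985 - 3 + 1 - 5.2 / 15 * ζ) :=
        mul_le_mul_of_nonneg_right hm (by linarith)
      have e5 : m * (ζ * 1.0985 - 3 + 1 - 5.2 / 15 * ζ) ≤ m * (xi ζ - 5.2 / 15 * ζ) :=
        mul_le_mul_of_nonneg_left (by linarith) (by linarith)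
      linarith
    have e6 : 5.932 * ζ - 13.2 ≤ (1.132 / 15 * ζ + 1 / 6) * θ := by
      have e7 : ζ * ((1.132 * θ + 5.2 * (m - 1)) / 15) =
          1.132 / 15 * ζ * θ + m * (5.2 / 15 * ζ) - 5.2 / 15 * ζ := by ring
      rw [e7] at hp2
      linarith
    have e8 : 3.9917 * (ζ - 0.63) ≤ θ := by
      by_contra hcon
      push Not at hcon
      have e9 : (1.132 / 15 * ζ + 1 / 6) * θ ≤ (1.132 / 15 * ζ + 1 / 6) * (3.9917 * (ζ - 0.63)) :=
        mul_le_mul_of_nonneg_left hcon.le (by linarith)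
      nlinarith [mul_nonneg (sub_nonneg.2 hζ.le) (sub_nonneg.2 h6)]
    have e10 : 0.6 * θ ≤ θ - z * (θ / 6) := by nlinarith
    have e11 : 0 ≤ z * max (bx - bv) 0 := mul_nonneg hzpos.le (le_max_right _ _)
    have e12 : z * (sv - s) + r * (z - ζ) + θ - r * b + z * max (bx - bv) 0 =
        z * sv - z * s - r * (ζ - z + b) + θ + z * max (bx - bv) 0 := by ring
    rw [e12]
    linarith
  · -- `6 < ζ`
    obtain ⟨hl1, hl2⟩ := lam_bounds hm hmS hβ hS hlog h6.le hζS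
    set n1 := (ζ - 1) + m * xi ζ - ζ * (5.2 * (m - 1) / 15) with hn1
    have hn1l : ζ * ((1 + 5.2 / 15) + m * (Real.log ζ - (1 + 5.2 / 15))) ≤ n1 := by
      rw [hn1]
      unfold xi
      have : (ζ - 1) + m * (ζ * Real.log ζ - ζ + 1) - ζ * (5.2 * (m - 1) / 15) =
          ζ * ((1 + 5.2 / 15) + m * (Real.log ζ - (1 + 5.2 / 15))) + (m - 1) := by ring
      linarith
    have hA : ζ * (0.3774 * ζ + 0.8334) ≤ n1 :=
      (mul_le_mul_of_nonneg_left hl1 hζ0.le).trans hn1l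
    have hB : ζ * (0.7441 * (ζ - 6)) ≤ n1 :=
      (mul_le_mul_of_nonneg_left hl2 hζ0.le).trans hn1l
    have hn10 : 0 < n1 := by
      refine lt_of_lt_of_le ?_ hA
      positivity
    set κ := 1.132 / 15 * ζ + 1 / 6 with hκ
    have hκ0 : 0 < κ := by positivity
    have hCx : n1 - κ * θ < bx * (ζ / 6 - 1) := by
      have e7 : ζ * ((1.132 * θ + 5.2 * (m - 1)) / 15) =
          1.132 / 15 * ζ * θ + ζ * (5.2 * (m - 1) / 15) := by ring
      rw [e7] at hp2
      rw [hn1, hκ]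
      linarith
    have hR3 : r * (ζ - z + b) + z * bv ≤ 3 * ζ := by linarith
    -- `A1`, `A2`
    have hA1 : κ * (3 * ζ) ≤ (1 - z / 6) * n1 := by
      have e1 : 0.6 * n1 ≤ (1 - z / 6) * n1 := mul_le_mul_of_nonneg_right (by linarith) hn10.le
      have e2 : κ * (3 * ζ) ≤ 0.6 * (ζ * (0.3774 * ζ + 0.8334)) := by
        rw [hκ]
        nlinarith
      linarith
    have hA2 : (ζ - 6) * (3 * ζ) ≤ 6 * z * n1 := by
      have e1 : 6 * 0.672 * n1 ≤ 6 * z * n1 := mul_le_mul_of_nonneg_right (by linarith) hn10.le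
      have e2 : (ζ - 6) * (3 * ζ) ≤ 6 * 0.672 * (ζ * (0.7441 * (ζ - 6))) := by
        have : 0 ≤ ζ * (ζ - 6) := mul_nonneg hζ0.le (by linarith)
        linarith
      linarith
    have hmax : z * bx - z * bv ≤ z * max (bx - bv) 0 := by
      have := mul_le_mul_of_nonneg_left (le_max_left (bx - bv) 0) hzpos.le
      linarith
    have hfin : 3 * ζ ≤ (1 - z / 6) * θ + z * bx := by
      rcases le_total n1 (κ * θ) with h7 | h7
      · have e1 : κ * (3 * ζ) ≤ κ * ((1 - z / 6) * θ) := by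
          have : (1 - z / 6) * n1 ≤ (1 - z / 6) * (κ * θ) :=
            mul_le_mul_of_nonneg_left h7 (by linarith)
          linarith
        have e2 := le_of_mul_le_mul_left e1 hκ0
        have e3 : 0 ≤ z * bx := mul_nonneg hzpos.le hbx
        linarith
      · -- multiply by `n1 (ζ - 6)`
        have hζ6 : 0 < ζ - 6 := by linarith
        have e1 : (n1 - κ * θ) * 6 ≤ bx * (ζ - 6) := by linarith
        have e2 : n1 * ((ζ - 6) * (3 * ζ)) ≤ n1 * ((ζ - 6) * ((1 - z / 6) * θ + z * bx)) := by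
          have f1 : κ * θ * (ζ - 6) * (3 * ζ) ≤ θ * (ζ - 6) * ((1 - z / 6) * n1) := by
            have := mul_le_mul_of_nonneg_left hA1 (mul_nonneg hθ hζ6.le)
            linarith
          have f2 : (n1 - κ * θ) * ((ζ - 6) * (3 * ζ)) ≤ (n1 - κ * θ) * (6 * z * n1) :=
            mul_le_mul_of_nonneg_left hA2 (by linarith)
          have f3 : z * n1 * ((n1 - κ * θ) * 6) ≤ z * n1 * (bx * (ζ - 6)) :=
            mul_le_mul_of_nonneg_left e1 (mul_nonneg hzpos.le hn10.le)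
          linarith
        exact le_of_mul_le_mul_left (le_of_mul_le_mul_left e2 hn10) hζ6
    have e12 : z * (sv - s) + r * (z - ζ) + θ - r * b + z * max (bx - bv) 0 =
        z * sv - z * s - r * (ζ - z + b) + θ + z * max (bx - bv) 0 := by ring
    rw [e12]
    linarith

/-- `2 (1-q) ≥ q⁴ (9.8 - 15 q²)` -/
lemma q_poly {q : ℝ} (h0 : 0 ≤ q) : q ^ 4 * (9.8 - 15 * q ^ 2) ≤ 2 * (1 - q) := by
  nlinarith [sq_nonneg (q ^ 3 - 0.3535), sq_nonneg (q ^ 2 - 0.5), sq_nonneg (q - 0.707),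
    mul_nonneg h0 (sq_nonneg (q ^ 2 - 0.5)), mul_nonneg h0 (sq_nonneg (q - 0.707)),
    mul_nonneg (sq_nonneg q) (sq_nonneg (q ^ 2 - 0.5)), sq_nonneg (q * (q - 0.707)),
    sq_nonneg (q ^ 2 * (q - 0.707)), mul_nonneg (mul_nonneg h0 h0) (sq_nonneg (q - 0.707))]

end Pool.Agent.Helper48.HC
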