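import Pool.Agent.Helper65.HC.Assembly2
import Pool.Agent.Helper48.HC.J5a
import Pool.Agent.Helper48.HC.J5x

/-!
# (J5) with threshold `3 g(T)` for all `T ≥ 10`
-/

set_option autoImplicit false

namespace Pool.Agent.Helper48.HC

open Pool.Agent.Helper65.HC Pool.Agent.Helper25.HC

/-- (C*) in normalised units -/
lemma cstar_norm {T L y b : ℝ} (hT : 0 < T) (h : CStar T L y b) :
    (y * (1 + T) - 1) + (1 + T) / be T * xi (y * (1 + T)) +
      b * (1 + T) ^ 2 * (1 - y * (1 + T) / 6) -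
      (y * (1 + T)) * ((1 + T) / be T - 1) * ((T - L) / (1 + T)) - ss T L * (1 + T) ^ 2 < 0 := by
  unfold CStar CT cT at h
  have hS : (0 : ℝ) < 1 + T := by linarith
  have hb := be_pos hT
  have e0 : y / gg T = y * (1 + T) := by
    unfold gg
    field_simp
  have h2 := mul_neg_of_neg_of_pos h (show (0 : ℝ) < (1 + T) ^ 2 by positivity)
  rw [e0, aa_eq] at h2
  have e : (y * (1 + T) - 1) + (1 + T) / be T * xi (y * (1 + T)) +
      b * (1 + T) ^ 2 * (1 - y * (1 + T) / 6) -
      (y * (1 + T)) * ((1 + T) / be T - 1) * ((T - L) / (1 + T)) - ss T L * (1 + T) ^ 2 =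
      (gg T * (y - gg T) + 1 / be T * (y * Real.log (y * (1 + T)) - y + gg T) +
        b * (1 - y / (6 * gg T)) + y * (gg T * (1 / be T - gg T) * (L - T)) - ss T L) *
        (1 + T) ^ 2 := by
    unfold xi gg
    field_simp
    ring
  rw [e]
  exact h2

lemma tt_norm {T L : ℝ} (hL : 0 < L) (h : L < T) :
    tt T L * (1 + T) ^ 3 * ((1 + L) / (1 + T)) ^ 2 = (1 + T) / be T * (be T - be L) := by
  have hT : 0 < T := hL.trans h
  have hb := be_pos hT
  have h1 : tt T L = gg L ^ 2 * (be T - be L) / be T := by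
    rw [tt_eq_of_le hT h.le, aa_eq, uu_eq hL]
    field_simp
  rw [h1]
  unfold gg
  have : (1 : ℝ) + L ≠ 0 := by linarith
  have : (1 : ℝ) + T ≠ 0 := by linarith
  field_simp

lemma q_sq {T L : ℝ} (hL : 0 < L) (hT : 0 < T) :
    (√(1 + L) / √(1 + T)) ^ 2 = (1 + L) / (1 + T) := by
  rw [div_pow, Real.sq_sqrt (by linarith), Real.sq_sqrt (by linarith)]

/-- `b ≥ 2 c (1-q)` -/
lemma b_lower {T L : ℝ} (hL : 0 < L) (h : L ≤ T) :
    2 * (((1 + T) / be T - 2) * (1 + T) / T) * (1 - √(1 + L) / √(1 + T)) ≤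
      (1 + T) / be T * (be T - be L) := by
  have hT : 0 < T := hL.trans_le h
  have hb := be_pos hT
  have h1 := be_incr_lower hL h
  have h2 := bd_eq hT
  have hR : 0 < √(1 + T) := Real.sqrt_pos.mpr (by linarith)
  have hR2 : √(1 + T) ^ 2 = 1 + T := Real.sq_sqrt (by linarith)
  have h3 : bd T = (1 - 2 * be T / (1 + T)) / T := by
    rw [eq_div_iff hT.ne']
    linarith
  have e1 : 2 * √(1 + T) * (√(1 + T) - √(1 + L)) = 2 * (1 + T) * (1 - √(1 + L) / √(1 + T)) := by
    generalize √(1 + T) = R at hR hR2 ⊢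
    generalize √(1 + L) = r
    rw [← hR2]
    field_simp
  rw [e1, h3] at h1
  have h4 := mul_le_mul_of_nonneg_left h1 (show 0 ≤ (1 + T) / be T by positivity)
  refine le_trans (le_of_eq ?_) h4
  have : (1 : ℝ) + T ≠ 0 := by linarith
  field_simp

lemma log_norm {T : ℝ} (hT : 0 < T) :
    Real.log (1 + T) = be T * (1 - 1 / (1 + T)) ^ 2 + (1 - 1 / (1 + T)) := by
  unfold be hl
  have : (1 : ℝ) + T ≠ 0 := by linarith
  field_simp
  ring

/-- **(J5) with threshold `3 g(T)`, for all `T ≥ 10`.** -/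
theorem j53 {T : ℝ} (hT10 : 10 ≤ T) : J53 T := by
  intro Lv yv bv Lx yx bx Y hLv hyv hyv3 hbv hCv hLx hyx hyx1 hbx hCx hY hYg hCTY hLam
  have hT : 0 < T := by linarith
  have hβ := be_pos hT
  have hβ18 := be_ge hT10
  have hS : (0 : ℝ) < 1 + T := by linarith
  have hgS : gg T = 1 / (1 + T) := rfl
  obtain ⟨S, hSdef⟩ : ∃ S, S = 1 + T := ⟨_, rfl⟩
  obtain ⟨m, hmdef⟩ : ∃ m, m = S / be T := ⟨_, rfl⟩
  obtain ⟨c, hcdef⟩ : ∃ c, c = (m - 2) * S / T := ⟨_, rfl⟩
  have hS0 : 0 < S := by rw [hSdef]; exact hS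
  have hS11 : 11 ≤ S := by linarith
  have hmS : m * be T = S := by rw [hmdef]; field_simp
  have hm : 6.1 ≤ m := by
    rw [hmdef, le_div_iff₀ hβ, hSdef]
    exact m_ge hT10
  have hc : 0 < c := by
    rw [hcdef]
    have : 0 < m - 2 := by linarith
    positivity
  have hk : m - 1 ≤ 1.132 * c := by
    have h1 := k_fact hT10
    rw [← hSdef] at h1
    have h2 : 1.132 * c - (m - 1) =
        ((0.132 * S ^ 2 + S) - be T * (1.264 * S + 1)) / (be T * T) := by
      rw [hcdef, hmdef]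
      have : T = S - 1 := by linarith
      subst this
      field_simp
      ring
    have h3 : 0 ≤ ((0.132 * S ^ 2 + S) - be T * (1.264 * S + 1)) / (be T * T) :=
      div_nonneg (by linarith) (by positivity)
    linarith
  have hlog : Real.log S = be T * (1 - 1 / S) ^ 2 + (1 - 1 / S) := by
    rw [hSdef]
    exact log_norm hT
  -- the `v` data
  have hz3 : yv * S ≤ 3 := by
    rw [hgS, ← hSdef] at hyv3
    have := mul_le_mul_of_nonneg_right hyv3 hS0.le
    have e : 3 * (1 / S) * S = 3 := by field_simp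
    linarith
  have hz0 : (1 - Y * S) * m < 2 := by
    have h1 : (Y * S - 1) + m * xi (Y * S) < 0 := by
      have h2 := mul_neg_of_neg_of_pos hCTY (show (0 : ℝ) < (1 + T) ^ 2 by positivity)
      unfold CT at h2
      have e0 : Y / gg T = Y * (1 + T) := by
        unfold gg
        field_simp
      rw [e0, aa_eq] at h2
      have e : (Y * S - 1) + m * xi (Y * S) =
          (gg T * (Y - gg T) + 1 / be T * (Y * Real.log (Y * (1 + T)) - Y + gg T)) *
            (1 + T) ^ 2 := by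
        rw [hmdef, hSdef]
        unfold xi gg
        field_simp
      rw [e]
      exact h2
    have hY1 : Y * S < 1 := by
      rw [hgS, ← hSdef] at hYg
      have := mul_lt_mul_of_pos_right hYg hS0
      have e : 1 / S * S = 1 := by field_simp
      linarith
    have h2 := xi_quad (mul_pos hY hS0) hY1.le
    have h3 := mul_le_mul_of_nonneg_left h2 (show 0 ≤ m by linarith)
    have h4 : 0 < 1 - Y * S := by linarith
    have h5 : ((1 - Y * S) * m) * (1 - Y * S) < 2 * (1 - Y * S) := by nlinarith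
    exact lt_of_mul_lt_mul_right h5 h4.le
  have hCv' := cstar_norm hT hCv
  rw [← hSdef, ← hmdef] at hCv'
  have hCx' := cstar_norm hT hCx
  rw [← hSdef, ← hmdef] at hCx'
  have hss0 : 0 ≤ ss T Lv * S ^ 2 := mul_nonneg (ss_nonneg hT hLv.le) (by positivity)
  -- the `x` data
  have hθ : 0 ≤ tt T Lx * S ^ 3 := mul_nonneg (tt_nonneg hLx) (by positivity)
  have hsx : 6 * (ss T Lx * S ^ 2) ≤ tt T Lx * S ^ 3 := by
    have h1 := ss_le hT hLx
    rw [hgS, ← hSdef] at h1
    have h2 := mul_le_mul_of_nonneg_right h1 (show 0 ≤ S ^ 3 by positivity)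
    have e : 6 * (1 / S) * ss T Lx * S ^ 3 = 6 * (ss T Lx * S ^ 2) := by field_simp
    linarith
  have hpx : 15 * ((T - Lx) / S * c) ≤ tt T Lx * S ^ 3 + 5.2 * c := by
    rcases lt_or_ge Lx T with h | h
    · obtain ⟨q, hq⟩ : ∃ q, q = √(1 + Lx) / √(1 + T) := ⟨_, rfl⟩
      have hq0 : 0 < q := by
        rw [hq]
        exact div_pos (Real.sqrt_pos.mpr (by linarith)) (Real.sqrt_pos.mpr (by linarith))
      have hq2 : q ^ 2 = (1 + Lx) / S := by rw [hq, hSdef]; exact q_sq hLx hT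
      have h1 := b_lower hLx h.le
      rw [← hSdef, ← hmdef] at h1
      have h2 := tt_norm hLx h
      rw [← hSdef, ← hmdef, ← hq2] at h2
      rw [hSdef, ← hq, ← hSdef] at h1
      rw [← hcdef, ← h2] at h1
      have h3 := q_poly hq0.le
      have h4 := mul_le_mul_of_nonneg_left h3 hc.le
      have h5 : (q ^ 2) ^ 2 = q ^ 4 := by ring
      rw [h5] at h1
      have h6 : q ^ 4 * (c * (9.8 - 15 * q ^ 2)) ≤ q ^ 4 * (tt T Lx * S ^ 3) := by linarith
      have h7 := le_of_mul_le_mul_left h6 (pow_pos hq0 4)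
      have h8 : (T - Lx) / S = 1 - q ^ 2 := by
        rw [hq2, hSdef]
        field_simp
        ring
      rw [h8]
      linarith
    · have h1 : (T - Lx) / S ≤ 0 := div_nonpos_of_nonpos_of_nonneg (by linarith) hS0.le
      have h2 : (T - Lx) / S * c ≤ 0 := mul_nonpos_of_nonpos_of_nonneg h1 hc.le
      linarith
  have hζ3 : 3 < yx * S := by
    rw [hgS, ← hSdef] at hyx
    have := mul_lt_mul_of_pos_right hyx hS0
    have e : 3 * (1 / S) * S = 3 := by field_simp
    linarith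
  have hζS : yx * S ≤ S := by
    have := mul_le_mul_of_nonneg_right hyx1 hS0.le
    linarith
  have hbx' : 0 ≤ bx * S ^ 2 := mul_nonneg hbx (by positivity)
  have hbv' : 0 ≤ bv * S ^ 2 := mul_nonneg hbv (by positivity)
  have hmax : yv * S * max (bx * S ^ 2 - bv * S ^ 2) 0 = yv * max (bx - bv) 0 * S ^ 3 := by
    have e : max (bx * S ^ 2 - bv * S ^ 2) 0 = max (bx - bv) 0 * S ^ 2 := by
      rw [← sub_mul, max_mul_of_nonneg _ _ (by positivity : 0 ≤ S ^ 2), zero_mul]
    rw [e]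
    ring
  have hS3 : 0 < S ^ 3 := by positivity
  -- the two cases for `v`
  suffices hfin : 0 ≤ (Bvx T Lv yv Lx yx + yv * max (bx - bv) 0) * S ^ 3 by
    exact nonneg_of_mul_nonneg_left hfin hS3
  rcases lt_or_ge Lv T with h | h
  · obtain ⟨q, hq⟩ : ∃ q, q = √(1 + Lv) / √(1 + T) := ⟨_, rfl⟩
    have hq0 : 0 < q := by
      rw [hq]
      exact div_pos (Real.sqrt_pos.mpr (by linarith)) (Real.sqrt_pos.mpr (by linarith))
    have hq2 : q ^ 2 = (1 + Lv) / S := by rw [hq, hSdef]; exact q_sq hLv hT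
    have hq1 : q ≤ 1 := by
      rw [hq]
      rw [div_le_one (Real.sqrt_pos.mpr (by linarith))]
      exact Real.sqrt_le_sqrt (by linarith)
    obtain ⟨b, hbdef⟩ : ∃ b, b = m * (be T - be Lv) := ⟨_, rfl⟩
    have hb0 : 0 ≤ b := by
      rw [hbdef]
      exact mul_nonneg (by linarith) (by linarith [be_mono hLv h.le])
    have h1 := b_lower hLv h.le
    rw [← hSdef, ← hmdef] at h1
    rw [hSdef, ← hq, ← hSdef, ← hcdef, ← hbdef] at h1
    have h2 := tt_norm hLv h
    rw [← hSdef, ← hmdef, ← hq2, ← hbdef] at h2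
    have h5 : (q ^ 2) ^ 2 = q ^ 4 := by ring
    rw [h5] at h2
    have hpv : (T - Lv) / S ≤ 1 - q ^ 2 := by
      rw [hq2, hSdef]
      apply le_of_eq
      field_simp
      ring
    have hsv : 6 * (ss T Lv * S ^ 2) * q ^ 4 ≤ b := by
      have h6 := ss_le hT hLv
      rw [hgS, ← hSdef] at h6
      have h7 := mul_le_mul_of_nonneg_right h6 (show 0 ≤ S ^ 3 by positivity)
      have e : 6 * (1 / S) * ss T Lv * S ^ 3 = 6 * (ss T Lv * S ^ 2) := by field_simp
      rw [e] at h7
      have h8 := mul_le_mul_of_nonneg_right h7 (pow_pos hq0 4).le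
      linarith
    have ediv : (be T - be Lv) / be T * S = b := by
      rw [hbdef, hmdef]
      field_simp
    have hzb : 0.9 * b ≤ yv * S - Y * S := by
      have h6 := hLam.trans (barrier3 hLv h.le hyv3)
      have h7 := mul_le_mul_of_nonneg_right h6 hS0.le
      linarith
    have hzb2 : yv * S ≤ 2.4 → 0.98 * b ≤ yv * S - Y * S := by
      intro hz
      have hy24 : yv ≤ 2.4 * gg T := by
        rw [hgS, ← hSdef, mul_one_div, le_div_iff₀ hS0]
        exact hz
      have h6 := hLam.trans (barrier24 hLv h.le hy24)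
      have h7 := mul_le_mul_of_nonneg_right h6 hS0.le
      linarith
    obtain ⟨v1, v2, v3, v4, v5⟩ := vside hm hc hk hz0 hb0 hzb hzb2 hz3 hq0 hq1 h1 hpv hss0 hsv
      hbv' hCv'
    have hx := xside (s := ss T Lx * S ^ 2) (θ := tt T Lx * S ^ 3) (px := (T - Lx) / S)
      (bx := bx * S ^ 2) (bv := bv * S ^ 2) (sv := ss T Lv * S ^ 2) hm hc hk hmS hβ18 hS11 hlog
      v1 v2 hq0 v3 v4 v5 hb0 hss0 hζ3 hζS hθ hsx hpx hbx' hCx'
    refine hx.trans (le_of_eq ?_)
    rw [hmax, add_mul]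
    congr 1
    have hq4 : q ^ 4 = ((1 + Lv) / S) ^ 2 := by rw [← hq2]; ring
    have e1 : 1 / q ^ 4 * b = tt T Lv * S ^ 3 := by
      rw [← h2]
      field_simp
    have hL0 : (1 : ℝ) + Lv ≠ 0 := by linarith
    have e2 : 1 / q ^ 4 * (yv * S - yx * S) = gg (min Lv T) ^ 2 * (yv - yx) * S ^ 3 := by
      rw [min_eq_left h.le, hq4]
      unfold gg
      field_simp
    rw [e1, e2]
    unfold Bvx
    rw [sg_eq_ss hT, sg_eq_ss hT]
    ring
  · have hLamv : Lam T Lv yv = yv := Lam_hub h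
    rw [hLamv] at hLam
    have hss : ss T Lv = 0 := ss_hub h
    have htt : tt T Lv = 0 := by rw [tt, if_neg (not_lt.2 h)]
    have hYz : Y * S ≤ yv * S := mul_le_mul_of_nonneg_right hLam hS0.le
    have hpv : (T - Lv) / S ≤ 1 - (1 : ℝ) ^ 2 := by
      have : (T - Lv) / S ≤ 0 := div_nonpos_of_nonpos_of_nonneg (by linarith) hS0.le
      linarith
    obtain ⟨v1, v2, v3, v4, v5⟩ := vside (q := 1) (b := 0) hm hc hk hz0 le_rfl
      (by linarith) (fun _ => by linarith) hz3 one_pos le_rfl (by linarith) hpv hss0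
      (by rw [hss]; norm_num) hbv' hCv'
    have hx := xside (s := ss T Lx * S ^ 2) (θ := tt T Lx * S ^ 3) (px := (T - Lx) / S)
      (bx := bx * S ^ 2) (bv := bv * S ^ 2) (sv := ss T Lv * S ^ 2) hm hc hk hmS hβ18 hS11 hlog
      v1 v2 one_pos v3 v4 v5 le_rfl hss0 hζ3 hζS hθ hsx hpx hbx' hCx'
    refine hx.trans (le_of_eq ?_)
    rw [hmax, add_mul]
    congr 1
    unfold Bvx
    rw [sg_eq_ss hT, sg_eq_ss hT, min_eq_right h, htt, hgS, ← hSdef]
    field_simp
    ring

end Pool.Agent.Helper48.HC
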