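import Mathlib

/-!
# (J5) for `T ≥ 10`: the pure real inequalities
-/

set_option autoImplicit false

namespace Pool.Agent.Helper48.HC

/-- `ξ(z) = z log z - z + 1` -/
noncomputable def xi (z : ℝ) : ℝ := z * Real.log z - z + 1

/-- tangent line of `ξ` at `a` -/
lemma xi_tangent {z a l : ℝ} (hz : 0 < z) (ha : 0 < a) (hl : l ≤ Real.log a) :
    z * l - a + 1 ≤ xi z := by
  have h1 : Real.log (a / z) ≤ a / z - 1 := Real.log_le_sub_one_of_pos (by positivity)
  rw [Real.log_div ha.ne' hz.ne'] at h1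
  have h2 : z * (Real.log a - Real.log z) ≤ z * (a / z - 1) := mul_le_mul_of_nonneg_left h1 hz.le
  have h3 : z * (a / z - 1) = a - z := by field_simp
  have h4 : z * l ≤ z * Real.log a := mul_le_mul_of_nonneg_left hl hz.le
  unfold xi
  linarith

lemma xi_nonneg {z : ℝ} (hz : 0 < z) : 0 ≤ xi z := by
  have := xi_tangent hz one_pos (l := 0) (by simp)
  linarith

/-- `(1-z)²/2 ≤ ξ(z)` for `0 < z ≤ 1` -/
lemma xi_quad {z : ℝ} (hz : 0 < z) (h1 : z ≤ 1) : (1 - z) ^ 2 / 2 ≤ xi z := by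
  have hd : ∀ x : ℝ, 0 < x → HasDerivAt (fun x : ℝ => xi x - (1 - x) ^ 2 / 2)
      (Real.log x + (1 - x)) x := by
    intro x hx
    have e1 : HasDerivAt (fun x : ℝ => x * Real.log x - x + 1) (Real.log x) x := by
      refine ((((hasDerivAt_id x).mul (Real.hasDerivAt_log hx.ne')).sub
        (hasDerivAt_id x)).add_const 1).congr_deriv ?_
      simp only [id]
      field_simp
      ring
    have e2 : HasDerivAt (fun x : ℝ => (1 - x) ^ 2 / 2) (-(1 - x)) x := by
      refine ((((hasDerivAt_id x).const_sub 1).pow 2).div_const 2).congr_deriv ?_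
      simp only [id, Nat.cast_ofNat]
      ring
    refine (e1.sub e2).congr_deriv ?_
    ring
  have key : AntitoneOn (fun x : ℝ => xi x - (1 - x) ^ 2 / 2) (Set.Icc z 1) := by
    refine antitoneOn_of_deriv_nonpos (convex_Icc z 1) ?_ ?_ ?_
    · exact fun x hx => (hd x (hz.trans_le hx.1)).continuousAt.continuousWithinAt
    · intro x hx
      rw [interior_Icc] at hx
      exact (hd x (hz.trans hx.1)).differentiableAt.differentiableWithinAt
    · intro x hx
      rw [interior_Icc] at hx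
      have hx0 := hz.trans hx.1
      rw [(hd x hx0).deriv]
      have := Real.log_le_sub_one_of_pos hx0
      linarith
  have h2 := key ⟨le_rfl, h1⟩ ⟨h1, le_rfl⟩ h1
  simp only [xi, Real.log_one] at h2
  unfold xi
  linarith

/-- lower bound of logarithms through powers of two: used below -/
lemma log_three_ge : (1.0985 : ℝ) ≤ Real.log 3 := by
  -- 3^12 = 531441 ≥ 2^19 * 1.0136
  have h1 : 12 * Real.log 3 = 19 * Real.log 2 + Real.log (531441 / 524288) := by
    rw [Real.log_div (by norm_num) (by norm_num)]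
    have e1 : (531441 : ℝ) = 3 ^ 12 := by norm_num
    have e2 : (524288 : ℝ) = 2 ^ 19 := by norm_num
    rw [e1, e2, Real.log_pow, Real.log_pow]
    push_cast
    ring
  have h2 := Real.one_sub_inv_le_log_of_pos (show (0 : ℝ) < 531441 / 524288 by norm_num)
  have h3 := Real.log_two_gt_d9
  norm_num at h2 h3 ⊢
  linarith

lemma log_six_ge : (1.7916 : ℝ) ≤ Real.log 6 := by
  have h1 : Real.log 6 = Real.log 2 + Real.log 3 := by
    rw [← Real.log_mul (by norm_num) (by norm_num)]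
    norm_num
  have h2 := log_three_ge
  have h3 := Real.log_two_gt_d9
  norm_num at h2 h3 ⊢
  linarith

/-- `log 2.4 ≥ 0.8754` -/
lemma log_24_ge : (0.8754 : ℝ) ≤ Real.log 2.4 := by
  have h1 : 19 * Real.log 2.4 = 24 * Real.log 2 + Real.log (2.4 ^ 19 / 2 ^ 24) := by
    rw [Real.log_div (by norm_num) (by norm_num), Real.log_pow, Real.log_pow]
    push_cast
    ring
  have h2 := Real.one_sub_inv_le_log_of_pos (show (0 : ℝ) < 2.4 ^ 19 / 2 ^ 24 by norm_num)
  have h3 := Real.log_two_gt_d9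
  norm_num at h2 h3 ⊢
  norm_num at h1
  linarith

/-- `log 1.8 ≥ 0.5877` -/
lemma log_18_ge : (0.5877 : ℝ) ≤ Real.log 1.8 := by
  -- 1.8^7 = 61.222; 2^6 = 64: ratio .9566; 1.8^20 = 127482.36 = 2^17 * .97261
  have h1 : 20 * Real.log 1.8 = 17 * Real.log 2 + Real.log (1.8 ^ 20 / 2 ^ 17) := by
    rw [Real.log_div (by norm_num) (by norm_num), Real.log_pow, Real.log_pow]
    push_cast
    ring
  have h2 := Real.one_sub_inv_le_log_of_pos (show (0 : ℝ) < 1.8 ^ 20 / 2 ^ 17 by norm_num)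
  have h3 := Real.log_two_gt_d9
  norm_num at h2 h3 ⊢
  norm_num at h1
  linarith

lemma poly1 {u : ℝ} (h1 : 0.7129 ≤ u) (h2 : u ≤ 0.787) :
    1 - u ≤ 6 * u ^ 4 * (1.0879 - 1.26 * u) := by
  have e1 : 1.125 * u ^ 2 - 0.31640625 ≤ u ^ 4 := by nlinarith [sq_nonneg (u ^ 2 - 0.5625)]
  have e2 : 6 * (1.125 * u ^ 2 - 0.31640625) * (1.0879 - 1.26 * u) ≤
      6 * u ^ 4 * (1.0879 - 1.26 * u) :=
    mul_le_mul_of_nonneg_right (by linarith) (by linarith)
  refine le_trans ?_ e2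
  nlinarith [mul_nonneg (sub_nonneg.2 h1) (sub_nonneg.2 h2)]

lemma poly2 {B : ℝ} (hB1 : 1.92 ≤ B) (hB2 : B ≤ 2.5867) :
    0 ≤ 5.1 * ((0.9 * B + 0.672 - 1) + 6.1 * ((0.9 * B + 0.672) * 0.8754 - 2.4 + 1)) +
      (0.9 * B + 0.672) * (0.566 * B) ^ 2 -
        5.1 * ((0.9 * B + 0.672) * (2 * (0.566 * B)) + (1.26 * B - 1.55)) := by
  have h1 := mul_nonneg (sub_nonneg.2 hB1) (sub_nonneg.2 hB2)
  have h2 := mul_nonneg h1 (sub_nonneg.2 hB2)
  linarith [h1, h2, mul_nonneg (sub_nonneg.2 hB1) (sub_nonneg.2 hB2)]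

/-- **The `v`-side.** -/
lemma vside {m c z z0 b q bv sv pv : ℝ} (hm : 6.1 ≤ m) (_hc : 0 < c) (hk : m - 1 ≤ 1.132 * c)
    (hz0 : (1 - z0) * m < 2) (hb : 0 ≤ b) (hzb : 0.9 * b ≤ z - z0)
    (hzb2 : z ≤ 2.4 → 0.98 * b ≤ z - z0) (hz3 : z ≤ 3) (hq0 : 0 < q) (hq1 : q ≤ 1)
    (hbq : 2 * c * (1 - q) ≤ b) (hpv : pv ≤ 1 - q ^ 2) (hsv0 : 0 ≤ sv)
    (hsv : 6 * sv * q ^ 4 ≤ b) (hbv : 0 ≤ bv)
    (hC : (z - 1) + m * xi z + bv * (1 - z / 6) - z * (m - 1) * pv - sv < 0) :
    0.672 < z ∧ z < 2.4 ∧ 1 ≤ 2.395 * q ^ 4 ∧ z * bv ≤ 3.2 ∧ 0.63 ≤ z - b := by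
  have hz0' : 0.672 < z0 := by
    by_contra hcon
    push Not at hcon
    have h1 : 0.328 * m ≤ (1 - z0) * m := mul_le_mul_of_nonneg_right (by linarith) (by linarith)
    linarith
  have hz : 0.672 < z := by linarith
  have hzpos : 0 < z := by linarith
  -- the bound of `(m-1)(1-q)`
  have ht : (m - 1) * (1 - q) ≤ 0.566 * b := by
    have h1 : (m - 1) * (1 - q) ≤ 1.132 * c * (1 - q) :=
      mul_le_mul_of_nonneg_right hk (by linarith)
    linarith
  have ht0 : 0 ≤ 1 - q := by linarith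
  have ht1 : 5.1 * (1 - q) ≤ 0.566 * b := by
    have : 5.1 * (1 - q) ≤ (m - 1) * (1 - q) := mul_le_mul_of_nonneg_right (by linarith) ht0
    linarith
  have hm1 : 0 < m - 1 := by linarith
  -- exclusion of `2.4 ≤ z`
  have hlt : z < 2.4 := by
    by_contra hcon
    push Not at hcon
    obtain ⟨B, hB⟩ : ∃ B, B = (z - 0.672) / 0.9 := ⟨_, rfl⟩
    have hzB : z = 0.9 * B + 0.672 := by rw [hB]; ring
    have hB1 : 1.92 ≤ B := by linarith
    have hB2 : B ≤ 2.5867 := by linarith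
    have hbB : b ≤ B := by linarith
    -- `p`
    have h1 : z * (m - 1) * pv ≤ z * (2 * (0.566 * B) - (0.566 * B) ^ 2 / (m - 1)) := by
      have e1 : (m - 1) * pv ≤ (m - 1) * (1 - q ^ 2) := mul_le_mul_of_nonneg_left hpv hm1.le
      have e2 : (m - 1) * (1 - q ^ 2) ≤ 2 * (0.566 * B) - (0.566 * B) ^ 2 / (m - 1) := by
        set a := (m - 1) * (1 - q) with ha
        have ha0 : 0 ≤ a := mul_nonneg hm1.le ht0
        have haA : a ≤ 0.566 * B := by linarith
        have e3 : (m - 1) * (1 - q ^ 2) = 2 * a - a ^ 2 / (m - 1) := by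
          rw [ha]
          field_simp
          ring
        rw [e3]
        have e4 : 2 * (0.566 * B) - (0.566 * B) ^ 2 / (m - 1) - (2 * a - a ^ 2 / (m - 1)) =
            (0.566 * B - a) * (2 - (0.566 * B + a) / (m - 1)) := by
          field_simp
          ring
        have e5 : 0 ≤ 2 - (0.566 * B + a) / (m - 1) := by
          rw [sub_nonneg, div_le_iff₀ hm1]
          linarith
        have e6 := mul_nonneg (sub_nonneg.2 haA) e5
        linarith
      have e7 := mul_le_mul_of_nonneg_left (e1.trans e2) hzpos.le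
      linarith
    -- `s`
    have h2 : sv ≤ 1.26 * B - 1.55 := by
      have hq : 1 - 0.110981 * B ≤ q := by linarith
      have hu1 : 0.7129 ≤ 1 - 0.110981 * B := by linarith
      have hu2 : 1 - 0.110981 * B ≤ 0.787 := by linarith
      have hq00 : 0 < 1 - 0.110981 * B := by linarith
      have e1 : (1 - 0.110981 * B) ^ 4 ≤ q ^ 4 := pow_le_pow_left₀ hq00.le hq 4
      have e2 : 6 * sv * (1 - 0.110981 * B) ^ 4 ≤ B := by
        have := mul_le_mul_of_nonneg_left e1 (by linarith : 0 ≤ 6 * sv)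
        linarith
      have e3 := poly1 hu1 hu2
      have e3' : 0.110981 * B ≤ 0.110981 * (6 * (1.26 * B - 1.55) * (1 - 0.110981 * B) ^ 4) := by
        have e5 : 6 * (1 - 0.110981 * B) ^ 4 * (1.0879 - 1.26 * (1 - 0.110981 * B)) ≤
            6 * (1 - 0.110981 * B) ^ 4 * (0.110981 * (1.26 * B - 1.55)) :=
          mul_le_mul_of_nonneg_left (by linarith) (by positivity)
        linarith
      have e4 : 6 * sv * (1 - 0.110981 * B) ^ 4 ≤ 6 * (1.26 * B - 1.55) * (1 - 0.110981 * B) ^ 4 := by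
        linarith
      have e5 := le_of_mul_le_mul_right e4 (pow_pos hq00 4)
      linarith
    have hxi := xi_tangent hzpos (show (0 : ℝ) < 2.4 by norm_num) log_24_ge
    have hxi1 : 0.7 ≤ xi z := by linarith
    -- monotonicity in `m`
    have h3 : 6.1 * xi z + z * (0.566 * B) ^ 2 / 5.1 ≤ m * xi z + z * ((0.566 * B) ^ 2 / (m - 1)) := by
      have e1 : m * xi z + z * ((0.566 * B) ^ 2 / (m - 1)) -
          (6.1 * xi z + z * (0.566 * B) ^ 2 / 5.1) =
          (m - 6.1) * (xi z - z * (0.566 * B) ^ 2 / (5.1 * (m - 1))) := by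
        field_simp
        ring
      have e2 : z * (0.566 * B) ^ 2 / (5.1 * (m - 1)) ≤ 0.7 := by
        rw [div_le_iff₀ (by positivity)]
        have : z * (0.566 * B) ^ 2 ≤ 3 * (0.566 * 2.5867) ^ 2 := by
          have e3 : (0.566 * B) ^ 2 ≤ (0.566 * 2.5867) ^ 2 :=
            pow_le_pow_left₀ (by linarith) (by linarith) 2
          nlinarith
        nlinarith
      have e4 := mul_nonneg (by linarith : 0 ≤ m - 6.1) (by linarith :
        0 ≤ xi z - z * (0.566 * B) ^ 2 / (5.1 * (m - 1)))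
      linarith
    have h4 : 0 ≤ bv * (1 - z / 6) := mul_nonneg hbv (by linarith)
    have h5 : (z - 1) + 6.1 * (z * 0.8754 - 2.4 + 1) + z * (0.566 * B) ^ 2 / 5.1 -
        z * (2 * (0.566 * B)) - (1.26 * B - 1.55) < 0 := by
      have e1 : z * (2 * (0.566 * B) - (0.566 * B) ^ 2 / (m - 1)) =
          z * (2 * (0.566 * B)) - z * ((0.566 * B) ^ 2 / (m - 1)) := by ring
      rw [e1] at h1
      linarith
    have h6 := poly2 hB1 hB2
    rw [← hzB] at h6
    have h7 : z * (0.566 * B) ^ 2 = 5.1 * (z * (0.566 * B) ^ 2 / 5.1) := by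
      field_simp
    rw [h7] at h6
    linarith
  have hzb3 := hzb2 hlt.le
  have hb2 : b ≤ 1.7633 := by linarith
  have hq : 0.8043 ≤ q := by linarith
  have hq4 : 0.4184 ≤ q ^ 4 := by
    have h1 : (0.8043 : ℝ) ^ 4 ≤ q ^ 4 := pow_le_pow_left₀ (by norm_num) hq 4
    norm_num at h1 ⊢
    linarith
  have hq41 : 1 ≤ 2.395 * q ^ 4 := by linarith
  refine ⟨hz, hlt, hq41, ?_, by linarith⟩
  have hsv1 : sv ≤ 0.4 * b := by
    have h1 : 6 * sv * 0.4184 ≤ 6 * sv * q ^ 4 := mul_le_mul_of_nonneg_left hq4 (by linarith)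
    linarith
  have hp : (m - 1) * pv ≤ 1.132 * b := by
    have h1 : pv ≤ 2 * (1 - q) := by
      have h0 := sq_nonneg (1 - q)
      linarith
    have h2 : (m - 1) * pv ≤ (m - 1) * (2 * (1 - q)) := mul_le_mul_of_nonneg_left h1 hm1.le
    linarith
  have hp2 : z * (m - 1) * pv ≤ z * (1.132 * b) := by
    have := mul_le_mul_of_nonneg_left hp hzpos.le
    linarith
  have hbz : 0.98 * b ≤ z - 0.672 := by linarith
  have hmain : 0.98 * (bv * (1 - z / 6)) + 0.98 * (m * xi z) <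
      (1.132 * z + 0.4) * (z - 0.672) - 0.98 * (z - 1) := by
    have h1 : (1.132 * z + 0.4) * (0.98 * b) ≤ (1.132 * z + 0.4) * (z - 0.672) :=
      mul_le_mul_of_nonneg_left hbz (by linarith)
    linarith
  rcases le_total z 1.5 with h15 | h15
  · have h1 : 0 ≤ m * xi z := mul_nonneg (by linarith) (xi_nonneg hzpos)
    have h5 : 0 ≤ (z - 0.672) * (1.5 - z) := mul_nonneg (by linarith) (by linarith)
    have h2 : bv * (1 - z / 6) ≤ 1.28 := by linarith
    have h3 : bv * 0.75 ≤ bv * (1 - z / 6) := mul_le_mul_of_nonneg_left (by linarith) hbv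
    have h4 : bv ≤ 1.71 := by linarith
    have h6 : z * bv ≤ 1.5 * 1.71 := mul_le_mul h15 h4 hbv (by norm_num)
    linarith
  · have h0 := xi_tangent hzpos (show (0 : ℝ) < 1.8 by norm_num) log_18_ge
    have h1 : 6.1 * (z * 0.5877 - 1.8 + 1) ≤ m * xi z := by
      have e1 : 6.1 * (z * 0.5877 - 1.8 + 1) ≤ m * (z * 0.5877 - 1.8 + 1) :=
        mul_le_mul_of_nonneg_right hm (by linarith)
      have e2 : m * (z * 0.5877 - 1.8 + 1) ≤ m * xi z :=
        mul_le_mul_of_nonneg_left h0 (by linarith)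
      linarith
    have h5 : 0 ≤ (z - 1.5) * (2.4 - z) := mul_nonneg (by linarith) (by linarith)
    have h2 : bv * (1 - z / 6) ≤ 0.79 := by linarith
    have h3 : bv * 0.6 ≤ bv * (1 - z / 6) := mul_le_mul_of_nonneg_left (by linarith) hbv
    have h4 : bv ≤ 1.32 := by linarith
    have h6 : z * bv ≤ 2.4 * 1.32 := mul_le_mul hlt.le h4 hbv (by norm_num)
    linarith

end Pool.Agent.Helper48.HC
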